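import Mathlib

/-!
# Cubes in sets which are clustered on several scales
-/

set_option autoImplicit false

namespace Q123.CU

open Finset
open scoped Pointwise

variable {G : Type*} [AddCommGroup G] [DecidableEq G]

/-- `F` is covered by `N` translates of `W` -/
def CovBy (F W : Finset G) (N : ℕ) : Prop := ∃ T : Finset G, #T ≤ N ∧ ∀ a ∈ F, ∃ t ∈ T, a - t ∈ W

/-- all differences of subset sums -/
def bad (d : ℕ → G) (m : ℕ) : Finset G :=
  ((range m).powerset ×ˢ (range m).powerset).image fun p => ∑ i ∈ p.1, d i - ∑ i ∈ p.2, d i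

lemma card_bad (d : ℕ → G) (m : ℕ) : #(bad d m) ≤ 4 ^ m := by
  refine card_image_le.trans ?_
  rw [card_product, card_powerset, card_range, ← mul_pow]
  norm_num

omit [AddCommGroup G] [DecidableEq G] in
lemma sq_card_le {β : Type*} [DecidableEq β] (S : Finset G) (T : Finset β) (f : G → β)
    (h : ∀ a ∈ S, f a ∈ T) : (#S) ^ 2 ≤ #T * #{p ∈ S ×ˢ S | f p.1 = f p.2} := by
  have h1 : #S = ∑ t ∈ T, #{a ∈ S | f a = t} := card_eq_sum_card_fiberwise h
  have h2 : #{p ∈ S ×ˢ S | f p.1 = f p.2} = ∑ t ∈ T, (#{a ∈ S | f a = t}) ^ 2 := by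
    rw [card_eq_sum_card_fiberwise (f := fun p : G × G => f p.1) (t := T)]
    · refine sum_congr rfl fun t _ => ?_
      rw [sq, ← card_product]
      congr 1
      ext ⟨a, b⟩
      simp only [mem_filter, mem_product]
      constructor
      · rintro ⟨⟨⟨h1, h2⟩, h3⟩, h4⟩
        exact ⟨⟨h1, h4⟩, h2, h3 ▸ h4⟩
      · rintro ⟨⟨h1, h2⟩, h3, h4⟩
        exact ⟨⟨⟨h1, h3⟩, h2.trans h4.symm⟩, h2⟩
    · intro p hp
      have hp' := mem_filter.1 hp
      exact h _ (mem_product.1 hp'.1).1
  rw [h2]
  have h3 := sq_sum_le_card_mul_sum_sq (s := T) (f := fun t => #{a ∈ S | f a = t})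
  rw [← h1] at h3
  exact h3

/-- one step: a popular difference which is not bad -/
lemma step {F W B : Finset G} {N b : ℕ} (hF : F.Nonempty) (hc : CovBy F W N) (hB : #B ≤ b)
    (hb : 1 ≤ b) (h : 2 * b * N ≤ #F) :
    ∃ d ∈ W - W, d ∉ B ∧ #F ≤ #(W - W) * #{a ∈ F | a + d ∈ F} := by
  obtain ⟨T, hT, hT2⟩ := hc
  choose! t ht ht2 using hT2
  have h1 := sq_card_le F T t ht
  set P : Finset (G × G) := {p ∈ F ×ˢ F | t p.1 = t p.2} with hP
  set Q : Finset (G × G) := {p ∈ P | p.2 - p.1 ∉ B} with hQ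
  -- few pairs are bad
  have h2 : #{p ∈ P | p.2 - p.1 ∈ B} ≤ #F * b := by
    calc #{p ∈ P | p.2 - p.1 ∈ B} ≤ #(F ×ˢ B) := by
          refine card_le_card_of_injOn (fun p => (p.1, p.2 - p.1)) ?_ ?_
          · intro p hp
            have hp' := mem_filter.1 hp
            have hp2 := mem_filter.1 hp'.1
            exact mem_product.2 ⟨(mem_product.1 hp2.1).1, hp'.2⟩
          · rintro ⟨a, a'⟩ _ ⟨c, c'⟩ _ h
            simp only [Prod.mk.injEq] at h
            obtain ⟨rfl, h⟩ := h
            rw [sub_left_inj] at h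
            rw [h]
      _ = #F * #B := card_product _ _
      _ ≤ _ := Nat.mul_le_mul_left _ hB
  have h3 : #P = #Q + #{p ∈ P | p.2 - p.1 ∈ B} := by
    rw [hQ, add_comm, card_filter_add_card_filter_not]
  have hTpos : 0 < #T := by
    obtain ⟨a, ha⟩ := hF
    exact card_pos.2 ⟨t a, ht a ha⟩
  have h4 : 2 * b * #F ≤ #P := by
    have h5 : #T * (2 * b * #F) ≤ #T * #P := by
      calc #T * (2 * b * #F) ≤ N * (2 * b * #F) := Nat.mul_le_mul_right _ hT
        _ = (2 * b * N) * #F := by ring
        _ ≤ #F * #F := Nat.mul_le_mul_right _ h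
        _ = #F ^ 2 := (sq _).symm
        _ ≤ _ := h1
    exact Nat.le_of_mul_le_mul_left h5 hTpos
  have h5 : #F ≤ #Q := by
    have h6 : #F * b ≤ #Q := by
      have : 2 * b * #F = #F * b + #F * b := by ring
      omega
    exact (Nat.le_mul_of_pos_right _ hb).trans h6
  -- a popular difference
  by_contra hcon
  push Not at hcon
  have h6 : #Q = ∑ d ∈ (W - W) \ B, #{p ∈ Q | p.2 - p.1 = d} := by
    refine card_eq_sum_card_fiberwise (f := fun p : G × G => p.2 - p.1) fun p hp => ?_
    have hp' := mem_filter.1 hp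
    have hp2 := mem_filter.1 hp'.1
    have hp3 := mem_product.1 hp2.1
    refine mem_coe.2 (mem_sdiff.2 ⟨?_, hp'.2⟩)
    have e1 : p.2 - p.1 = (p.2 - t p.2) - (p.1 - t p.1) := by
      rw [← hp2.2]; abel
    show p.2 - p.1 ∈ W - W
    rw [e1]
    exact sub_mem_sub (ht2 _ hp3.2) (ht2 _ hp3.1)
  have h7 : ∀ d ∈ (W - W) \ B, #(W - W) * #{p ∈ Q | p.2 - p.1 = d} < #F := by
    intro d hd
    rw [mem_sdiff] at hd
    refine lt_of_le_of_lt (Nat.mul_le_mul_left _ ?_) (hcon d hd.1 hd.2)
    refine card_le_card_of_injOn (fun p => p.1) ?_ ?_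
    · intro p hp
      have hp' := mem_filter.1 hp
      have hp2 := mem_filter.1 (mem_filter.1 hp'.1).1
      have hp3 := mem_product.1 hp2.1
      refine mem_coe.2 (mem_filter.2 ⟨hp3.1, ?_⟩)
      have e1 : p.1 + d = p.2 := by rw [← hp'.2]; abel
      show p.1 + d ∈ F
      rw [e1]
      exact hp3.2
    · rintro ⟨a, a'⟩ hp ⟨c, c'⟩ hq h
      have hp' := (mem_filter.1 hp).2
      have hq' := (mem_filter.1 hq).2
      simp only at h hp' hq'
      subst h
      have : a' = c' := by
        rw [← sub_left_inj (a := a), hp', hq']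
      rw [this]
  have hne : ((W - W) \ B).Nonempty := by
    by_contra hemp
    rw [not_nonempty_iff_eq_empty] at hemp
    rw [hemp, sum_empty] at h6
    have := hF.card_pos
    omega
  have h8 : #(W - W) * #Q < #((W - W) \ B) * #F := by
    rw [h6, mul_sum]
    calc ∑ d ∈ (W - W) \ B, #(W - W) * #{p ∈ Q | p.2 - p.1 = d} < ∑ d ∈ (W - W) \ B, #F :=
          sum_lt_sum_of_nonempty hne h7
      _ = _ := by rw [sum_const, smul_eq_mul]
  have h9 : #((W - W) \ B) * #F ≤ #(W - W) * #F := Nat.mul_le_mul_right _ (card_le_card sdiff_subset)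
  have h10 : #(W - W) * #F ≤ #(W - W) * #Q := Nat.mul_le_mul_left _ h5
  omega

/-- A set which is clustered on `m` scales contains a cube of dimension `m`. -/
theorem cube {F : Finset G} (hF : F.Nonempty) (m : ℕ) (W : ℕ → Finset G) (N : ℕ → ℕ)
    (hc : ∀ i < m, CovBy F (W i) (N i))
    (h : ∀ i < m, 2 * 4 ^ i * N i * ∏ k ∈ range i, #(W k - W k) ≤ #F) :
    ∃ (d : ℕ → G) (F' : Finset G), F'.Nonempty ∧ #F ≤ (∏ k ∈ range m, #(W k - W k)) * #F' ∧
      (∀ i < m, d i ∈ W i - W i) ∧ (∀ a ∈ F', ∀ S ⊆ range m, a + ∑ i ∈ S, d i ∈ F) ∧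
      ∀ S ⊆ range m, ∀ T ⊆ range m, ∑ i ∈ S, d i = ∑ i ∈ T, d i → S = T := by
  induction m with
  | zero =>
    refine ⟨fun _ => 0, F, hF, ?_, fun i hi => absurd hi (Nat.not_lt_zero i), ?_, ?_⟩
    · rw [prod_range_zero, one_mul]
    · intro a ha S hS
      rw [range_zero, subset_empty] at hS
      rw [hS, sum_empty, add_zero]
      exact ha
    · intro S hS T hT _
      rw [range_zero, subset_empty] at hS hT
      rw [hS, hT]
  | succ m ih =>
    obtain ⟨d, F1, hne, hcard, hdW, hF1, hinj⟩ := ih (fun i hi => hc i (by omega)) fun i hi => h i (by omega)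
    set M := ∏ k ∈ range m, #(W k - W k) with hM
    have hsub : F1 ⊆ F := by
      intro a ha
      have := hF1 a ha ∅ (empty_subset _)
      rwa [sum_empty, add_zero] at this
    have hMpos : 0 < M := by
      rcases Nat.eq_zero_or_pos M with h0 | h0
      · rw [h0, zero_mul] at hcard
        have := hF.card_pos
        omega
      · exact h0
    have h1 : 2 * 4 ^ m * N m ≤ #F1 := by
      have h2 := (h m (by omega)).trans hcard
      rw [mul_comm (2 * 4 ^ m * N m)] at h2
      exact Nat.le_of_mul_le_mul_left h2 hMpos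
    have hc1 : CovBy F1 (W m) (N m) := by
      obtain ⟨T, hT, hT2⟩ := hc m (by omega)
      exact ⟨T, hT, fun a ha => hT2 a (hsub ha)⟩
    obtain ⟨e, heW, heB, he⟩ := step hne hc1 (card_bad d m) (Nat.one_le_pow _ _ (by norm_num)) h1
    set F2 : Finset G := {a ∈ F1 | a + e ∈ F1} with hF2
    have hupd : ∀ S ⊆ range m, ∑ i ∈ S, Function.update d m e i = ∑ i ∈ S, d i := by
      intro S hS
      refine sum_congr rfl fun i hi => ?_
      rw [Function.update_of_ne]
      have := mem_range.1 (hS hi)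
      omega
    have hsplit : ∀ S ⊆ range (m + 1), m ∈ S → S.erase m ⊆ range m ∧
        ∑ i ∈ S, Function.update d m e i = ∑ i ∈ S.erase m, d i + e := by
      intro S hS hm
      have h2 : S.erase m ⊆ range m := by
        intro i hi
        rw [mem_erase] at hi
        have := mem_range.1 (hS hi.2)
        exact mem_range.2 (by omega)
      refine ⟨h2, ?_⟩
      rw [← sum_erase_add _ _ hm, hupd _ h2, Function.update_self]
    have hnot : ∀ S ⊆ range (m + 1), m ∉ S → S ⊆ range m := by
      intro S hS hm i hi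
      have h2 := mem_range.1 (hS hi)
      have h3 : i ≠ m := fun h => hm (h ▸ hi)
      exact mem_range.2 (by omega)
    refine ⟨Function.update d m e, F2, ?_, ?_, ?_, ?_, ?_⟩
    · by_contra hemp
      rw [not_nonempty_iff_eq_empty] at hemp
      rw [hemp, card_empty, mul_zero] at he
      have := hne.card_pos
      omega
    · rw [prod_range_succ, mul_assoc]
      exact hcard.trans (Nat.mul_le_mul_left _ he)
    · intro i hi
      rcases Nat.lt_succ_iff_lt_or_eq.1 hi with h2 | h2
      · rw [Function.update_of_ne (by omega)]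
        exact hdW i h2
      · rw [h2, Function.update_self]
        exact heW
    · intro a ha S hS
      rw [hF2, mem_filter] at ha
      by_cases hm : m ∈ S
      · obtain ⟨h2, h3⟩ := hsplit S hS hm
        rw [h3]
        have h4 := hF1 (a + e) ha.2 _ h2
        rw [add_comm (∑ i ∈ S.erase m, d i), ← add_assoc]
        exact h4
      · have h2 := hnot S hS hm
        rw [hupd S h2]
        exact hF1 a ha.1 S h2
    · intro S hS T hT hST
      have hbad : ∀ S T : Finset ℕ, S ⊆ range (m + 1) → T ⊆ range (m + 1) → m ∈ S → m ∉ T →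
          ∑ i ∈ S, Function.update d m e i ≠ ∑ i ∈ T, Function.update d m e i := by
        intro S T hS hT hm hm' h2
        obtain ⟨h3, h4⟩ := hsplit S hS hm
        have h5 := hnot T hT hm'
        rw [h4, hupd T h5] at h2
        apply heB
        unfold bad
        refine mem_image.2 ⟨(T, S.erase m), mem_product.2 ⟨mem_powerset.2 h5, mem_powerset.2 h3⟩, ?_⟩
        show ∑ i ∈ T, d i - ∑ i ∈ S.erase m, d i = e
        rw [← h2]; abel
      by_cases hm : m ∈ S <;> by_cases hm' : m ∈ T
      · obtain ⟨h3, h4⟩ := hsplit S hS hm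
        obtain ⟨h5, h6⟩ := hsplit T hT hm'
        rw [h4, h6, add_left_inj] at hST
        have h7 := hinj _ h3 _ h5 hST
        rw [← insert_erase hm, h7, insert_erase hm']
      · exact absurd hST (hbad S T hS hT hm hm')
      · exact absurd hST.symm (hbad T S hT hS hm' hm)
      · have h3 := hnot S hS hm
        have h5 := hnot T hT hm'
        rw [hupd S h3, hupd T h5] at hST
        exact hinj S h3 T h5 hST

/-- Many representations of the opposite vertices. -/
theorem many {F : Finset G} (hF : F.Nonempty) (m : ℕ) (W : ℕ → Finset G) (N : ℕ → ℕ)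
    (hc : ∀ i < m, CovBy F (W i) (N i))
    (h : ∀ i < m, 2 * 4 ^ i * N i * ∏ k ∈ range i, #(W k - W k) ≤ #F) :
    ∃ s : G, 2 ^ m ≤ #{p ∈ F ×ˢ F | p.1 + p.2 = s} := by
  obtain ⟨d, F', ⟨a, ha⟩, -, -, hcube, hinj⟩ := cube hF m W N hc h
  have hcp := hcube a ha
  refine ⟨a + a + ∑ i ∈ range m, d i, ?_⟩
  calc 2 ^ m = #(range m).powerset := by rw [card_powerset, card_range]
    _ ≤ _ := by
      refine card_le_card_of_injOn (fun S => (a + ∑ i ∈ S, d i, a + ∑ i ∈ range m \ S, d i)) ?_ ?_
      · intro S hS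
        have hS' := mem_powerset.1 hS
        refine mem_coe.2 (mem_filter.2 ⟨mem_product.2 ⟨hcp S hS', hcp _ sdiff_subset⟩, ?_⟩)
        show a + ∑ i ∈ S, d i + (a + ∑ i ∈ range m \ S, d i) = a + a + ∑ i ∈ range m, d i
        rw [← sum_sdiff hS']
        abel
      · intro S hS T hT hST
        have h1 := (Prod.mk.inj hST).1
        exact hinj S (mem_powerset.1 hS) T (mem_powerset.1 hT) (add_left_cancel h1)

end Q123.CU
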