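import Pool.Agent.Q123.ET.Density
import Pool.Agent.Q123.CU.Cube

/-!
# Representation functions of clustered sets of integers
-/

set_option autoImplicit false

namespace Q123.CU

open Finset Q123.ET
open scoped Pointwise

/-- the elements of `A` less than `x`, as integers -/
noncomputable def fz (A : Set ℕ) (x : ℕ) : Finset ℤ := by
  classical
  exact ({a ∈ range x | a ∈ A} : Finset ℕ).image (fun a : ℕ => (a : ℤ))

lemma mem_fz {A : Set ℕ} {x : ℕ} {z : ℤ} : z ∈ fz A x ↔ ∃ a : ℕ, a < x ∧ a ∈ A ∧ (a : ℤ) = z := by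
  classical
  unfold fz
  simp [and_assoc]

lemma card_fz (A : Set ℕ) (x : ℕ) : #(fz A x) = cnt A x := by
  classical
  unfold fz cnt
  rw [card_image_of_injective _ Nat.cast_injective]

lemma covBy {A : Set ℕ} {x L N : ℕ} (h : Covered (A ∩ Set.Iio x) L N) :
    CovBy (fz A x) (Ico 0 (L : ℤ)) N := by
  obtain ⟨t, ht, h1⟩ := h
  refine ⟨t, ht, fun z hz => ?_⟩
  obtain ⟨a, ha1, ha2, rfl⟩ := mem_fz.1 hz
  obtain ⟨s, hs, h2, h3⟩ := h1 a ⟨ha2, ha1⟩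
  exact ⟨s, hs, mem_Ico.2 ⟨by omega, by omega⟩⟩

lemma card_ico_sub (L : ℕ) : #(Ico 0 (L : ℤ) - Ico 0 (L : ℤ)) ≤ 2 * L := by
  have h : Ico 0 (L : ℤ) - Ico 0 (L : ℤ) ⊆ Ico (-(L : ℤ)) L := by
    intro z hz
    obtain ⟨a, ha, b, hb, rfl⟩ := mem_sub.1 hz
    rw [mem_Ico] at ha hb
    rw [mem_Ico]
    omega
  refine (card_le_card h).trans ?_
  rw [Int.card_Ico]
  omega

/-- many representations for a set of natural numbers, covering version -/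
theorem rep_of_covers {A : Set ℕ} {x : ℕ} (hx : 1 ≤ cnt A x) (m : ℕ) (L N : ℕ → ℕ)
    (hc : ∀ i < m, Covered (A ∩ Set.Iio x) (L i) (N i))
    (h : ∀ i < m, 2 * 4 ^ i * N i * ∏ k ∈ range i, (2 * L k) ≤ cnt A x) :
    ∃ n < 2 * x, 2 ^ m ≤ rep A n := by
  classical
  have hne : (fz A x).Nonempty := by
    rw [← card_pos, card_fz]; omega
  obtain ⟨s, hs⟩ := many hne m (fun i => Ico 0 (L i : ℤ)) N (fun i hi => covBy (hc i hi)) (by
    intro i hi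
    rw [card_fz]
    refine le_trans (Nat.mul_le_mul_left _ (prod_le_prod' fun k _ => card_ico_sub (L k))) (h i hi))
  have hpos : 0 < #{p ∈ fz A x ×ˢ fz A x | p.1 + p.2 = s} := lt_of_lt_of_le (by positivity) hs
  obtain ⟨⟨a, b⟩, hp⟩ := card_pos.1 hpos
  rw [mem_filter, mem_product] at hp
  obtain ⟨a', ha1, ha2, ha3⟩ := mem_fz.1 hp.1.1
  obtain ⟨b', hb1, hb2, hb3⟩ := mem_fz.1 hp.1.2
  simp only at ha3 hb3
  have hsum : ((a' + b' : ℕ) : ℤ) = s := by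
    have := hp.2
    simp only at this
    rw [← this, ← ha3, ← hb3]; push_cast; rfl
  refine ⟨a' + b', by omega, hs.trans ?_⟩
  unfold rep
  refine card_le_card_of_injOn (fun p => (p.1.toNat, p.2.toNat)) ?_ ?_
  · rintro ⟨u, v⟩ huv
    have huv' := mem_filter.1 huv
    obtain ⟨u', hu1, hu2, rfl⟩ := mem_fz.1 (mem_product.1 huv'.1).1
    obtain ⟨v', hv1, hv2, rfl⟩ := mem_fz.1 (mem_product.1 huv'.1).2
    have h3 : (u' : ℤ) + v' = s := huv'.2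
    refine mem_coe.2 (mem_filter.2 ⟨mem_antidiagonal.2 ?_, ?_⟩)
    · simp only [Int.toNat_natCast]
      have h4 : (u' : ℤ) + v' = ((a' + b' : ℕ) : ℤ) := by rw [h3, hsum]
      exact_mod_cast h4
    · simp only [Int.toNat_natCast]
      exact ⟨hu2, hv2⟩
  · rintro ⟨u, v⟩ huv ⟨u2, v2⟩ huv2 heq
    have h1 := mem_product.1 (mem_filter.1 huv).1
    have h2 := mem_product.1 (mem_filter.1 huv2).1
    obtain ⟨a1, _, _, e1⟩ := mem_fz.1 h1.1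
    obtain ⟨a2, _, _, e2⟩ := mem_fz.1 h1.2
    obtain ⟨a3, _, _, e3⟩ := mem_fz.1 h2.1
    obtain ⟨a4, _, _, e4⟩ := mem_fz.1 h2.2
    simp only at e1 e2 e3 e4
    subst e1 e2 e3 e4
    simp only [Int.toNat_natCast, Prod.mk.injEq] at heq
    rw [heq.1, heq.2]

/-- `A ∩ [0, x)` is covered by at most `A(x) / L ^ δ` intervals of length `L` -/
def Clu (A : Set ℕ) (δ : ℝ) (x L : ℕ) : Prop :=
  ∃ N : ℕ, Covered (A ∩ Set.Iio x) L N ∧ (N : ℝ) * (L : ℝ) ^ δ ≤ cnt A x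

/-- clustering on `m` scales -/
theorem rep_of_clu {A : Set ℕ} {x : ℕ} (hx : 1 ≤ cnt A x) {δ : ℝ} (hδ : 0 < δ) {q R : ℕ}
    (hq : 1 + 2 / δ ≤ q) (hR : 64 ≤ (R : ℝ) ^ δ) (m : ℕ) (h : ∀ i < m, Clu A δ x (R ^ q ^ i)) :
    ∃ n < 2 * x, 2 ^ m ≤ rep A n := by
  choose! N hN hN2 using h
  refine rep_of_covers hx m (fun i => R ^ q ^ i) N hN fun i hi => ?_
  have hR1 : (1 : ℝ) ≤ R := by
    by_contra hcon
    push Not at hcon
    have hR0 : (0 : ℝ) ≤ R := Nat.cast_nonneg R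
    have := Real.rpow_le_one hR0 hcon.le hδ.le
    linarith
  have hR0 : (0 : ℝ) ≤ R := by linarith
  obtain ⟨ρ, hρ⟩ : ∃ ρ : ℝ, ρ = (R : ℝ) ^ (δ / 2) := ⟨_, rfl⟩
  have hρ2 : ρ ^ 2 = (R : ℝ) ^ δ := by
    rw [hρ, ← Real.rpow_natCast, ← Real.rpow_mul hR0]
    congr 1
    push_cast
    ring
  have hρ0 : 0 ≤ ρ := by rw [hρ]; exact Real.rpow_nonneg hR0 _
  have hρ8 : 8 ≤ ρ := by nlinarith
  have hq1 : (2 : ℝ) / δ ≤ (q : ℝ) - 1 := by linarith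
  have hq2 : 1 ≤ q := by
    have h2 : 0 < 2 / δ := by positivity
    have h3 : (1 : ℝ) < q := by linarith
    exact_mod_cast h3.le
  -- the geometric sum
  have hgeo : ((q : ℝ) - 1) * ((∑ k ∈ range i, q ^ k : ℕ) : ℝ) = (q : ℝ) ^ i - 1 := by
    push_cast
    rw [mul_comm]
    exact geom_sum_mul (q : ℝ) i
  have hS : ((∑ k ∈ range i, q ^ k : ℕ) : ℝ) ≤ δ / 2 * ((q ^ i - 1 : ℕ) : ℝ) := by
    have h1 : ((q ^ i - 1 : ℕ) : ℝ) = (q : ℝ) ^ i - 1 := by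
      rw [Nat.cast_sub (Nat.one_le_pow _ _ hq2)]
      push_cast
      rfl
    rw [h1, ← hgeo]
    have h2 : 0 ≤ ((∑ k ∈ range i, q ^ k : ℕ) : ℝ) := Nat.cast_nonneg _
    have h3 : 1 ≤ δ / 2 * ((q : ℝ) - 1) := by
      calc (1 : ℝ) = δ / 2 * (2 / δ) := by field_simp
        _ ≤ _ := mul_le_mul_of_nonneg_left hq1 (by positivity)
    calc ((∑ k ∈ range i, q ^ k : ℕ) : ℝ) = 1 * ((∑ k ∈ range i, q ^ k : ℕ) : ℝ) := (one_mul _).symm
      _ ≤ (δ / 2 * ((q : ℝ) - 1)) * ((∑ k ∈ range i, q ^ k : ℕ) : ℝ) := mul_le_mul_of_nonneg_right h3 h2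
      _ = _ := by ring
  have hRS : (R : ℝ) ^ (∑ k ∈ range i, q ^ k) ≤ ρ ^ (q ^ i - 1) := by
    rw [← Real.rpow_natCast, hρ, ← Real.rpow_natCast, ← Real.rpow_mul hR0]
    exact Real.rpow_le_rpow_of_exponent_le hR1 hS
  have hLδ : ((R ^ q ^ i : ℕ) : ℝ) ^ δ = ρ ^ (2 * q ^ i) := by
    rw [pow_mul, hρ2]
    push_cast
    rw [← Real.rpow_natCast (R : ℝ), ← Real.rpow_mul hR0, mul_comm, Real.rpow_mul hR0, Real.rpow_natCast]
  have h1 := hN2 i hi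
  rw [hLδ] at h1
  have h2 : (2 : ℝ) * 4 ^ i * (2 ^ i * (R : ℝ) ^ (∑ k ∈ range i, q ^ k)) ≤ ρ ^ (2 * q ^ i) := by
    have e1 : 2 * q ^ i = (q ^ i - 1) + (q ^ i + 1) := by
      have := Nat.one_le_pow i q hq2
      omega
    rw [e1, pow_add]
    have h3 : (2 : ℝ) * 4 ^ i * 2 ^ i ≤ ρ ^ (q ^ i + 1) := by
      have h4 : i + 1 ≤ q ^ i + 1 := by
        have hq3 : 2 ≤ q := by
          have h2 : 0 < 2 / δ := by positivity
          have h3 : (1 : ℝ) < q := by linarith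
          exact_mod_cast h3
        have := (Nat.lt_pow_self (n := i) (a := q) (by omega)).le
        omega
      calc (2 : ℝ) * 4 ^ i * 2 ^ i = 2 * 8 ^ i := by rw [mul_assoc, ← mul_pow]; norm_num
        _ ≤ 8 * 8 ^ i := by nlinarith [pow_pos (show (0 : ℝ) < 8 by norm_num) i]
        _ = 8 ^ (i + 1) := by ring
        _ ≤ ρ ^ (i + 1) := pow_le_pow_left₀ (by norm_num) hρ8 _
        _ ≤ _ := pow_le_pow_right₀ (by linarith) h4
    calc (2 : ℝ) * 4 ^ i * (2 ^ i * (R : ℝ) ^ (∑ k ∈ range i, q ^ k))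
        = (R : ℝ) ^ (∑ k ∈ range i, q ^ k) * (2 * 4 ^ i * 2 ^ i) := by ring
      _ ≤ ρ ^ (q ^ i - 1) * ρ ^ (q ^ i + 1) := mul_le_mul hRS h3 (by positivity) (by positivity)
  have h3 : (∏ k ∈ range i, (2 * R ^ q ^ k)) = 2 ^ i * R ^ (∑ k ∈ range i, q ^ k) := by
    rw [prod_mul_distrib, prod_const, card_range, prod_pow_eq_pow_sum]
  have h4 : ((2 * 4 ^ i * N i * ∏ k ∈ range i, (2 * R ^ q ^ k) : ℕ) : ℝ) ≤ cnt A x := by
    rw [h3]
    push_cast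
    calc (2 : ℝ) * 4 ^ i * N i * (2 ^ i * (R : ℝ) ^ (∑ k ∈ range i, q ^ k))
        = N i * (2 * 4 ^ i * (2 ^ i * (R : ℝ) ^ (∑ k ∈ range i, q ^ k))) := by ring
      _ ≤ N i * ρ ^ (2 * q ^ i) := mul_le_mul_of_nonneg_left h2 (Nat.cast_nonneg _)
      _ ≤ _ := h1
  exact_mod_cast h4

end Q123.CU
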