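import Pool.Agent.Q123.CU.Clu

/-!
# Clustered and homogeneous sets have unbounded representation functions
-/

set_option autoImplicit false

namespace Q123.CU

open Finset Filter Q123.ET

/-- clustering on all scales `x ^ η ≤ L ≤ x` for arbitrarily small `η` -/
theorem unbounded_of_clu {A : Set ℕ} {δ : ℝ} (hδ : 0 < δ)
    (h : ∀ η : ℝ, 0 < η → ∀ X : ℕ, ∃ x ≥ X, 1 ≤ cnt A x ∧
      ∀ L : ℕ, (x : ℝ) ^ η ≤ L → L ≤ x → Clu A δ x L) (r : ℕ) : ∃ n, r < rep A n := by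
  obtain ⟨q, hq⟩ : ∃ q : ℕ, q = ⌈1 + 2 / δ⌉₊ := ⟨_, rfl⟩
  have hq1 : 1 + 2 / δ ≤ (q : ℝ) := by rw [hq]; exact Nat.le_ceil _
  have hq2 : 1 ≤ q := by
    have h2 : 0 < 2 / δ := by positivity
    have h3 : (1 : ℝ) < q := by linarith
    exact_mod_cast h3.le
  obtain ⟨η, hη⟩ : ∃ η : ℝ, η = 1 / (2 * (q : ℝ) ^ r) := ⟨_, rfl⟩
  have hqr : (0 : ℝ) < (q : ℝ) ^ r := by positivity
  have hη0 : 0 < η := by rw [hη]; positivity
  obtain ⟨X, hX⟩ := exists_nat_ge ((2 + (64 : ℝ) ^ (1 / δ)) ^ (1 / η))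
  obtain ⟨x, hxX, hx1, hx⟩ := h η hη0 (X + 1)
  have hxpos : (0 : ℝ) < x := by
    have : 1 ≤ x := by omega
    exact_mod_cast this
  have h64 : (0 : ℝ) < (64 : ℝ) ^ (1 / δ) := by positivity
  obtain ⟨w, hw⟩ : ∃ w : ℝ, w = (x : ℝ) ^ η := ⟨_, rfl⟩
  have hw1 : 2 + (64 : ℝ) ^ (1 / δ) ≤ w := by
    have h1 : (2 + (64 : ℝ) ^ (1 / δ)) ^ (1 / η) ≤ x := by
      have : (X : ℝ) ≤ x := by
        have : X ≤ x := by omega
        exact_mod_cast this
      linarith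
    calc 2 + (64 : ℝ) ^ (1 / δ) = ((2 + (64 : ℝ) ^ (1 / δ)) ^ (1 / η)) ^ η := by
          rw [← Real.rpow_mul (by positivity), one_div_mul_cancel hη0.ne', Real.rpow_one]
      _ ≤ (x : ℝ) ^ η := Real.rpow_le_rpow (by positivity) h1 hη0.le
      _ = w := hw.symm
  have hR1 : w ≤ (⌈w⌉₊ : ℝ) := Nat.le_ceil _
  have hR2 : (⌈w⌉₊ : ℝ) ≤ w ^ 2 := by
    have h1 := Nat.ceil_lt_add_one (show 0 ≤ w by linarith)
    nlinarith
  have h1R : 1 ≤ ⌈w⌉₊ := by
    rw [Nat.one_le_ceil_iff]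
    linarith
  obtain ⟨n, _, hn⟩ := rep_of_clu (A := A) (x := x) hx1 hδ hq1 (R := ⌈w⌉₊) (by
    calc (64 : ℝ) = ((64 : ℝ) ^ (1 / δ)) ^ δ := by
          rw [← Real.rpow_mul (by norm_num), one_div_mul_cancel hδ.ne', Real.rpow_one]
      _ ≤ (⌈w⌉₊ : ℝ) ^ δ := Real.rpow_le_rpow h64.le (by linarith) hδ.le) r (by
    intro i hi
    apply hx
    · rw [← hw]
      refine hR1.trans ?_
      have h2 : ⌈w⌉₊ ≤ ⌈w⌉₊ ^ q ^ i := Nat.le_self_pow (pow_pos (by omega) i).ne' _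
      exact_mod_cast h2
    · have h2 : ((⌈w⌉₊ ^ q ^ i : ℕ) : ℝ) ≤ x := by
        push_cast
        calc (⌈w⌉₊ : ℝ) ^ q ^ i ≤ (⌈w⌉₊ : ℝ) ^ q ^ r :=
              pow_le_pow_right₀ (by exact_mod_cast h1R) (Nat.pow_le_pow_right (by omega) hi.le)
          _ ≤ (w ^ 2) ^ q ^ r := pow_le_pow_left₀ (Nat.cast_nonneg _) hR2 _
          _ = (x : ℝ) ^ (η * (2 * (q : ℝ) ^ r)) := by
              rw [hw, ← pow_mul, ← Real.rpow_natCast, ← Real.rpow_mul hxpos.le]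
              push_cast
              rfl
          _ = x := by
              rw [hη, one_div_mul_cancel (by positivity), Real.rpow_one]
      exact_mod_cast h2)
  exact ⟨n, lt_of_lt_of_le r.lt_two_pow_self hn⟩

/-- homogeneous sets: clustering at the maximum of `A(x) / x ^ (ε / 2)` -/
lemma hom_clu {A : Set ℕ} {B : ℕ}
    (hB : ∀ x L : ℕ, 1 ≤ L → L ≤ x → Covered (A ∩ Set.Iio x) L (B * cnt A (B * (x / L))))
    {ε : ℝ} (hε : 0 < ε) {R : ℕ} (hR1 : 1 ≤ R) (hRB : B ≤ R)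
    (hR : (B : ℝ) * (B : ℝ) ^ (ε / 2) ≤ (R : ℝ) ^ (ε / 4)) {x : ℕ} (hx1 : 1 ≤ x)
    (hmax : ∀ y : ℕ, 1 ≤ y → y ≤ x → (cnt A y : ℝ) / (y : ℝ) ^ (ε / 2) ≤ cnt A x / (x : ℝ) ^ (ε / 2))
    {L : ℕ} (hL : R ≤ L) (hLx : L ≤ x) : Clu A (ε / 4) x L := by
  have hL1 : 1 ≤ L := hR1.trans hL
  refine ⟨B * cnt A (B * (x / L)), hB x L hL1 hLx, ?_⟩
  have hL0 : (0 : ℝ) < L := by exact_mod_cast hL1
  have hx0 : (0 : ℝ) < x := by exact_mod_cast hx1
  set y := B * (x / L) with hy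
  have hyx : y ≤ x := by
    calc y ≤ L * (x / L) := Nat.mul_le_mul_right _ (hRB.trans hL)
      _ ≤ x := Nat.mul_div_le x L
  rcases Nat.eq_zero_or_pos y with h0 | h0
  · have h1 : cnt A y = 0 := by
      have := cnt_le A y
      omega
    rw [h1, mul_zero, Nat.cast_zero, zero_mul]
    exact Nat.cast_nonneg _
  · have hy0 : (0 : ℝ) < y := by exact_mod_cast h0
    have h1 := hmax y h0 hyx
    rw [div_le_iff₀ (Real.rpow_pos_of_pos hy0 _)] at h1
    have h2 : (y : ℝ) ≤ B * (x / L) := by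
      rw [hy]
      push_cast
      exact mul_le_mul_of_nonneg_left Nat.cast_div_le (Nat.cast_nonneg _)
    have h3 : (y : ℝ) ^ (ε / 2) ≤ (B : ℝ) ^ (ε / 2) * ((x : ℝ) ^ (ε / 2) / (L : ℝ) ^ (ε / 2)) := by
      calc (y : ℝ) ^ (ε / 2) ≤ (B * ((x : ℝ) / L)) ^ (ε / 2) :=
            Real.rpow_le_rpow hy0.le h2 (by positivity)
        _ = _ := by
            rw [Real.mul_rpow (Nat.cast_nonneg _) (by positivity), Real.div_rpow hx0.le hL0.le]
    have h4 : (cnt A y : ℝ) ≤ cnt A x * ((B : ℝ) ^ (ε / 2) / (L : ℝ) ^ (ε / 2)) := by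
      calc (cnt A y : ℝ) ≤ cnt A x / (x : ℝ) ^ (ε / 2) * (y : ℝ) ^ (ε / 2) := h1
        _ ≤ cnt A x / (x : ℝ) ^ (ε / 2) *
            ((B : ℝ) ^ (ε / 2) * ((x : ℝ) ^ (ε / 2) / (L : ℝ) ^ (ε / 2))) :=
            mul_le_mul_of_nonneg_left h3 (by positivity)
        _ = _ := by
            have : (0 : ℝ) < (x : ℝ) ^ (ε / 2) := Real.rpow_pos_of_pos hx0 _
            field_simp
    have h5 : (L : ℝ) ^ (ε / 2) = (L : ℝ) ^ (ε / 4) * (L : ℝ) ^ (ε / 4) := by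
      rw [← Real.rpow_add hL0]
      congr 1
      ring
    have h6 : (0 : ℝ) < (L : ℝ) ^ (ε / 4) := Real.rpow_pos_of_pos hL0 _
    have h7 : (R : ℝ) ^ (ε / 4) ≤ (L : ℝ) ^ (ε / 4) :=
      Real.rpow_le_rpow (Nat.cast_nonneg _) (by exact_mod_cast hL) (by positivity)
    push_cast
    calc (B : ℝ) * (cnt A y : ℝ) * (L : ℝ) ^ (ε / 4)
        ≤ B * (cnt A x * ((B : ℝ) ^ (ε / 2) / (L : ℝ) ^ (ε / 2))) * (L : ℝ) ^ (ε / 4) := by gcongr
      _ = cnt A x * ((B : ℝ) * (B : ℝ) ^ (ε / 2) / (L : ℝ) ^ (ε / 4)) := by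
          rw [h5]
          field_simp
      _ ≤ cnt A x * 1 := by
          refine mul_le_mul_of_nonneg_left ?_ (Nat.cast_nonneg _)
          rw [div_le_one h6]
          exact hR.trans h7
      _ = _ := mul_one _

/-- Homogeneous sets of positive upper dimension have large representation numbers. -/
theorem growth_hom {A : Set ℕ} (hA : Homogeneous A) {ε : ℝ} (hε : 0 < ε)
    (h : ∃ᶠ x : ℕ in atTop, (x : ℝ) ^ ε ≤ cnt A x) :
    ∃ c κ : ℝ, 0 < c ∧ 0 < κ ∧ ∃ᶠ x : ℕ in atTop, ∃ n < 2 * x, c * Real.log x ^ κ ≤ rep A n := by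
  obtain ⟨B, hB⟩ := hA
  obtain ⟨q, hq⟩ : ∃ q : ℕ, q = ⌈1 + 2 / (ε / 4)⌉₊ := ⟨_, rfl⟩
  have hq1 : 1 + 2 / (ε / 4) ≤ (q : ℝ) := by rw [hq]; exact Nat.le_ceil _
  have hq2 : 2 ≤ q := by
    have h2 : 0 < 2 / (ε / 4) := by positivity
    have h3 : (1 : ℝ) < q := by linarith
    exact_mod_cast h3
  -- the first scale
  have hten : Tendsto (fun R : ℕ => (R : ℝ) ^ (ε / 4)) atTop atTop :=
    (tendsto_rpow_atTop (by positivity)).comp tendsto_natCast_atTop_atTop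
  obtain ⟨R, ⟨hR64, hRB'⟩, hR2, hRB⟩ := ((hten.eventually_ge_atTop 64).and
    (hten.eventually_ge_atTop ((B : ℝ) * (B : ℝ) ^ (ε / 2)))).and
    ((eventually_ge_atTop 2).and (eventually_ge_atTop B)) |>.exists
  have hlogR : 0 < Real.log R := Real.log_pos (by exact_mod_cast hR2)
  have hlogq : 0 < Real.log q := Real.log_pos (by exact_mod_cast hq2)
  have hlog2 : 0 < Real.log 2 := Real.log_pos (by norm_num)
  refine ⟨(1 / Real.log R) ^ (Real.log 2 / Real.log q), Real.log 2 / Real.log q, by positivity,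
    by positivity, ?_⟩
  rw [frequently_atTop]
  intro X0
  have hten2 : Tendsto (fun X : ℕ => (X : ℝ) ^ (ε / 2)) atTop atTop :=
    (tendsto_rpow_atTop (by positivity)).comp tendsto_natCast_atTop_atTop
  obtain ⟨X, hX, hX1, hX2⟩ := (h.and_eventually ((hten2.eventually_ge_atTop ((X0 + R + 1 : ℕ) : ℝ)).and
    (eventually_ge_atTop 1))).exists
  obtain ⟨x, hx, hmax⟩ := Finset.exists_max_image (Finset.Icc 1 X)
    (fun y : ℕ => (cnt A y : ℝ) / (y : ℝ) ^ (ε / 2)) ⟨1, Finset.mem_Icc.2 ⟨le_rfl, hX2⟩⟩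
  rw [Finset.mem_Icc] at hx
  have hX0 : (0 : ℝ) < X := by exact_mod_cast hX2
  have hx0 : (0 : ℝ) < x := by exact_mod_cast hx.1
  have h1 := hmax X (Finset.mem_Icc.2 ⟨hX2, le_rfl⟩)
  have h2 : (X : ℝ) ^ (ε / 2) ≤ (cnt A X : ℝ) / (X : ℝ) ^ (ε / 2) := by
    rw [le_div_iff₀ (Real.rpow_pos_of_pos hX0 _), ← Real.rpow_add hX0, add_halves]
    exact hX
  have hxe : (1 : ℝ) ≤ (x : ℝ) ^ (ε / 2) := Real.one_le_rpow (by exact_mod_cast hx.1) (by positivity)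
  have h3 : (cnt A x : ℝ) / (x : ℝ) ^ (ε / 2) ≤ cnt A x := div_le_self (Nat.cast_nonneg _) hxe
  have h4 : (cnt A x : ℝ) ≤ x := by exact_mod_cast cnt_le A x
  have h5 : ((X0 + R + 1 : ℕ) : ℝ) ≤ x := by linarith
  have h6 : X0 + R + 1 ≤ x := by exact_mod_cast h5
  have h7 : 1 ≤ cnt A x := by
    have h8 : (1 : ℝ) ≤ cnt A x := by
      have : (1 : ℝ) ≤ ((X0 + R + 1 : ℕ) : ℝ) := by
        have : 1 ≤ X0 + R + 1 := by omega
        exact_mod_cast this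
      linarith
    exact_mod_cast h8
  refine ⟨x, by omega, ?_⟩
  have hclu : ∀ L : ℕ, R ≤ L → L ≤ x → Clu A (ε / 4) x L := fun L hL hLx =>
    hom_clu hB hε (by omega) hRB hRB' hx.1
      (fun y hy hyx => hmax y (Finset.mem_Icc.2 ⟨hy, hyx.trans hx.2⟩)) hL hLx
  have hlx : Nat.log R x ≠ 0 := by
    have : 0 < Nat.log R x := Nat.log_pos (by omega) (by omega)
    omega
  obtain ⟨n, hn1, hn2⟩ := rep_of_clu h7 (by positivity) hq1 hR64 (Nat.log q (Nat.log R x) + 1) (by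
    intro i hi
    apply hclu
    · exact Nat.le_self_pow (pow_pos (by omega) i).ne' _
    · have h8 : q ^ i ≤ Nat.log R x :=
        (Nat.pow_le_pow_right (by omega) (by omega : i ≤ Nat.log q (Nat.log R x))).trans
          (Nat.pow_log_le_self q hlx)
      exact (Nat.pow_le_pow_right (by omega) h8).trans (Nat.pow_log_le_self R (by omega)))
  refine ⟨n, hn1, ?_⟩
  set m := Nat.log q (Nat.log R x) + 1 with hm
  have h8 : Nat.log R x < q ^ m := Nat.lt_pow_succ_log_self (by omega) _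
  have h9 : x < R ^ (Nat.log R x + 1) := Nat.lt_pow_succ_log_self (by omega) _
  have h10 : Real.log x ≤ (q : ℝ) ^ m * Real.log R := by
    have e1 : Real.log x ≤ Real.log ((R : ℝ) ^ (Nat.log R x + 1)) := by
      refine Real.log_le_log hx0 ?_
      exact_mod_cast h9.le
    rw [Real.log_pow] at e1
    refine e1.trans (mul_le_mul_of_nonneg_right ?_ hlogR.le)
    exact_mod_cast h8
  have hlx0 : 0 ≤ Real.log x := Real.log_nonneg (by exact_mod_cast hx.1)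
  calc (1 / Real.log R) ^ (Real.log 2 / Real.log q) * Real.log x ^ (Real.log 2 / Real.log q)
      = (Real.log x / Real.log R) ^ (Real.log 2 / Real.log q) := by
        rw [← Real.mul_rpow (by positivity) hlx0]
        congr 1
        ring
    _ ≤ ((q : ℝ) ^ m) ^ (Real.log 2 / Real.log q) := by
        refine Real.rpow_le_rpow (by positivity) ?_ (by positivity)
        rw [div_le_iff₀ hlogR]
        exact h10
    _ = 2 ^ m := by
        rw [← Real.rpow_natCast, ← Real.rpow_mul (by positivity), mul_comm, Real.rpow_mul (by positivity)]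
        have : (q : ℝ) ^ (Real.log 2 / Real.log q) = 2 := by
          rw [Real.rpow_def_of_pos (by positivity), mul_div_cancel₀ _ hlogq.ne', Real.exp_log (by norm_num)]
        rw [this, Real.rpow_natCast]
    _ ≤ rep A n := by exact_mod_cast hn2

end Q123.CU
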