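import Pool.Agent.Q123.CU.Hom

/-!
# Sums of few powers of two: homogeneous sets with bounded representation functions
-/

set_option autoImplicit false

namespace Q123.CU

open Finset Filter Q123.ET

/-- the sums of at most `k` different powers of two -/
def PP (k : ℕ) : Set ℕ := {n | ∃ S : Finset ℕ, #S ≤ k ∧ n = ∑ i ∈ S, 2 ^ i}

lemma hom_PP (k : ℕ) : Homogeneous (PP k) := by
  classical
  refine homogeneous_of_closed le_rfl ⟨1, ?_⟩
  rintro a ⟨S, hS, rfl⟩
  refine ⟨∑ i ∈ (S.erase 0).image (fun i => i - 1), 2 ^ i, ⟨_, ?_, rfl⟩, ?_⟩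
  · exact card_image_le.trans ((card_le_card (erase_subset _ _)).trans hS)
  · have h1 : 2 * ∑ i ∈ (S.erase 0).image (fun i => i - 1), 2 ^ i = ∑ i ∈ S.erase 0, 2 ^ i := by
      rw [sum_image, mul_sum]
      · refine sum_congr rfl fun i hi => ?_
        have : i ≠ 0 := (mem_erase.1 hi).1
        obtain ⟨j, rfl⟩ := Nat.exists_eq_succ_of_ne_zero this
        rw [Nat.succ_sub_one, Nat.succ_eq_add_one, pow_succ, mul_comm]
      · intro i hi j hj hij
        have h1 : i ≠ 0 := (mem_erase.1 hi).1
        have h2 : j ≠ 0 := (mem_erase.1 hj).1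
        simp only at hij
        omega
    have h2 : ∑ i ∈ S, 2 ^ i ≤ ∑ i ∈ S.erase 0, 2 ^ i + 1 ∧ ∑ i ∈ S.erase 0, 2 ^ i ≤ ∑ i ∈ S, 2 ^ i := by
      by_cases h0 : 0 ∈ S
      · rw [← sum_erase_add _ _ h0, pow_zero]
        omega
      · rw [erase_eq_of_notMem h0]
        omega
    rw [abs_le]
    push_cast
    have h3 : (2 : ℤ) * ∑ i ∈ (S.erase 0).image (fun i => i - 1), 2 ^ i = ∑ i ∈ S.erase 0, 2 ^ i := by
      exact_mod_cast h1
    have h4 : (∑ i ∈ S, (2 : ℤ) ^ i) ≤ ∑ i ∈ S.erase 0, 2 ^ i + 1 := by exact_mod_cast h2.1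
    have h5 : (∑ i ∈ S.erase 0, (2 : ℤ) ^ i) ≤ ∑ i ∈ S, 2 ^ i := by exact_mod_cast h2.2
    rw [h3]
    constructor <;> linarith

/-- the number of multisets of `j` powers of two with a given sum is at most `j!` -/
lemma multisets (j : ℕ) : ∀ n : ℕ, ∃ M : Finset (Multiset ℕ), #M ≤ j.factorial ∧
    ∀ s : Multiset ℕ, Multiset.card s = j → (s.map (fun i => 2 ^ i)).sum = n → s ∈ M := by
  classical
  induction j with
  | zero =>
    intro n
    refine ⟨{0}, by simp, fun s hs _ => ?_⟩
    rw [Multiset.card_eq_zero] at hs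
    rw [hs]
    exact mem_singleton_self _
  | succ j ih =>
    intro n
    choose M hM1 hM2 using ih
    -- the possible largest exponents
    obtain ⟨W, hW1, hW2⟩ : ∃ W : Finset ℕ, #W ≤ j + 1 ∧ ∀ E : ℕ, 2 ^ E ≤ n → n ≤ (j + 1) * 2 ^ E → E ∈ W := by
      refine ⟨Finset.Ioc (Nat.log 2 n - (j + 1)) (Nat.log 2 n) ∪ (if n = 0 then ∅ else ∅) ∪
        (if Nat.log 2 n < j + 1 then Finset.range (Nat.log 2 n + 1) else ∅), ?_, ?_⟩
      · by_cases h1 : Nat.log 2 n < j + 1
        · rw [if_pos h1, ite_self, union_empty]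
          have h2 : Finset.Ioc (Nat.log 2 n - (j + 1)) (Nat.log 2 n) ∪ Finset.range (Nat.log 2 n + 1) =
              Finset.range (Nat.log 2 n + 1) := by
            apply union_eq_right.2
            intro E hE
            rw [Finset.mem_Ioc] at hE
            exact mem_range.2 (by omega)
          rw [h2, card_range]
          omega
        · rw [if_neg h1, ite_self, union_empty, union_empty, Nat.card_Ioc]
          omega
      · intro E h1 h2
        have hn : n ≠ 0 := by
          have := pow_pos (show 0 < 2 by norm_num) E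
          omega
        have h3 : E ≤ Nat.log 2 n := Nat.le_log_of_pow_le (by norm_num) h1
        have h4 : Nat.log 2 n < j + 1 + E := by
          apply Nat.log_lt_of_lt_pow hn
          calc n ≤ (j + 1) * 2 ^ E := h2
            _ < 2 ^ (j + 1) * 2 ^ E := Nat.mul_lt_mul_of_pos_right Nat.lt_two_pow_self (by positivity)
            _ = 2 ^ (j + 1 + E) := (pow_add _ _ _).symm
        by_cases h5 : Nat.log 2 n < j + 1
        · refine mem_union_right _ ?_
          rw [if_pos h5]
          exact mem_range.2 (by omega)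
        · refine mem_union_left _ (mem_union_left _ ?_)
          rw [Finset.mem_Ioc]
          omega
    refine ⟨W.biUnion fun E => (M (n - 2 ^ E)).image (fun s => E ::ₘ s), ?_, ?_⟩
    · refine card_biUnion_le.trans ?_
      calc ∑ E ∈ W, #((M (n - 2 ^ E)).image (fun s => E ::ₘ s)) ≤ ∑ E ∈ W, j.factorial :=
            sum_le_sum fun E _ => card_image_le.trans (hM1 _)
        _ = #W * j.factorial := by rw [sum_const, smul_eq_mul]
        _ ≤ (j + 1) * j.factorial := Nat.mul_le_mul_right _ hW1
        _ = _ := (Nat.factorial_succ j).symm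
    · intro s hs hsum
      have hne : s ≠ 0 := by
        rintro rfl
        simp at hs
      have hne' : s.toFinset.Nonempty := by
        rwa [Multiset.toFinset_nonempty]
      obtain ⟨E, hE, hmax⟩ := s.toFinset.exists_max_image id hne'
      rw [Multiset.mem_toFinset] at hE
      obtain ⟨t, rfl⟩ := Multiset.exists_cons_of_mem hE
      rw [Multiset.card_cons] at hs
      rw [Multiset.map_cons, Multiset.sum_cons] at hsum
      have h1 : 2 ^ E ≤ n := by omega
      have h2 : n ≤ (j + 1) * 2 ^ E := by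
        have h3 : ∀ x ∈ t.map (fun i => 2 ^ i), x ≤ 2 ^ E := by
          intro x hx
          obtain ⟨i, hi, rfl⟩ := Multiset.mem_map.1 hx
          have := hmax i (by rw [Multiset.mem_toFinset]; exact Multiset.mem_cons_of_mem hi)
          exact Nat.pow_le_pow_right (by norm_num) this
        have h4 := Multiset.sum_le_card_nsmul _ _ h3
        rw [Multiset.card_map, smul_eq_mul, (by omega : Multiset.card t = j)] at h4
        calc n = 2 ^ E + (t.map (fun i => 2 ^ i)).sum := hsum.symm
          _ ≤ 2 ^ E + j * 2 ^ E := by omega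
          _ = _ := by ring
      exact mem_biUnion.2 ⟨E, hW2 E h1 h2, mem_image.2 ⟨t, hM2 _ t (by omega) (by omega), rfl⟩⟩

/-- the representation function of `PP k` is bounded -/
lemma rep_PP (k : ℕ) : ∃ C : ℕ, ∀ n, rep (PP k) n ≤ C := by
  classical
  choose M hM1 hM2 using multisets
  refine ⟨∑ j ∈ range (2 * k + 1), j.factorial * 2 ^ j, fun n => ?_⟩
  unfold rep
  have h1 : #{p ∈ antidiagonal n | p.1 ∈ PP k ∧ p.2 ∈ PP k} ≤
      #((range (2 * k + 1)).biUnion fun j => (({s ∈ M j n | Multiset.card s = j} : Finset (Multiset ℕ)).biUnion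
        fun s => s.powerset.toFinset.image fun t => (t.map (fun i => 2 ^ i)).sum)) := by
    refine card_le_card_of_injOn (fun p => p.1) ?_ ?_
    · rintro ⟨a, b⟩ hp
      obtain ⟨hp, ⟨S, hS, rfl⟩, T, hT, rfl⟩ := mem_filter.1 hp
      rw [HasAntidiagonal.mem_antidiagonal] at hp
      simp only at hp
      have hcard : Multiset.card (S.val + T.val) = #S + #T := by rw [Multiset.card_add]; rfl
      have hsum : ((S.val + T.val).map (fun i => 2 ^ i)).sum = n := by
        rw [Multiset.map_add, Multiset.sum_add]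
        exact hp
      refine mem_coe.2 (mem_biUnion.2 ⟨#S + #T, mem_range.2 (by omega), mem_biUnion.2 ⟨S.val + T.val, ?_, ?_⟩⟩)
      · exact mem_filter.2 ⟨hM2 _ _ _ hcard hsum, hcard⟩
      · refine mem_image.2 ⟨S.val, ?_, rfl⟩
        rw [Multiset.mem_toFinset, Multiset.mem_powerset]
        exact Multiset.le_add_right _ _
    · rintro ⟨a, b⟩ hp ⟨a', b'⟩ hp' h
      simp only at h
      subst h
      have e1 := HasAntidiagonal.mem_antidiagonal.1 (mem_filter.1 hp).1
      have e2 := HasAntidiagonal.mem_antidiagonal.1 (mem_filter.1 hp').1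
      simp only at e1 e2
      rw [Prod.mk.injEq]
      exact ⟨rfl, by omega⟩
  refine h1.trans (card_biUnion_le.trans (sum_le_sum fun j _ => ?_))
  refine card_biUnion_le.trans ?_
  calc ∑ s ∈ ({s ∈ M j n | Multiset.card s = j} : Finset (Multiset ℕ)),
        #(s.powerset.toFinset.image fun t => (t.map (fun i => 2 ^ i)).sum)
      ≤ ∑ s ∈ ({s ∈ M j n | Multiset.card s = j} : Finset (Multiset ℕ)), 2 ^ j := by
        refine sum_le_sum fun s hs => ?_
        refine card_image_le.trans ((Multiset.toFinset_card_le _).trans ?_)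
        rw [Multiset.card_powerset, (mem_filter.1 hs).2]
    _ = #({s ∈ M j n | Multiset.card s = j} : Finset (Multiset ℕ)) * 2 ^ j := by
        rw [sum_const, smul_eq_mul]
    _ ≤ _ := Nat.mul_le_mul_right _ ((card_filter_le _ _).trans (hM1 j n))

/-- the number of elements of `PP k` -/
lemma cnt_PP (k s : ℕ) : s.choose k ≤ cnt (PP k) (2 ^ s) := by
  classical
  unfold cnt
  calc s.choose k = #(powersetCard k (range s)) := by rw [card_powersetCard, card_range]
    _ ≤ _ := by
      refine card_le_card_of_injOn (fun S => ∑ i ∈ S, 2 ^ i) ?_ ?_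
      · intro S hS
        obtain ⟨h1, h2⟩ := mem_powersetCard.1 hS
        refine mem_coe.2 (mem_filter.2 ⟨mem_range.2 ?_, S, h2.le, rfl⟩)
        exact Nat.geomSum_lt le_rfl fun i hi => mem_range.1 (h1 hi)
      · intro S _ T _ h
        exact geomSum_injective le_rfl h

end Q123.CU
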